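import Mathlib

set_option autoImplicit false

namespace Pool.Agent.Lib.MP_8d1505_an

open Set Filter Topology

/-! ### Free sets for finite set mappings on an uncountable set -/

lemma free_step {G : Type} (D : G → Finset G) (X : Set G) (hX : ¬ X.Countable) :
    ∃ b ∈ X, ¬ ({b' | b' ∈ X ∧ b ∉ D b' ∧ b' ∉ D b ∧ b' ≠ b} : Set G).Countable := by
  by_contra hcon
  push Not at hcon
  have hinf : X.Infinite := by
    intro hf
    exact hX hf.countable
  let e := hinf.natEmbedding
  apply hX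
  have hsub : X ⊆ ⋃ n : ℕ, ({b' | b' ∈ X ∧ (e n : G) ∉ D b' ∧ b' ∉ D (e n) ∧ b' ≠ (e n : G)}
      ∪ (↑(D (e n)) : Set G) ∪ {(e n : G)}) := by
    intro b' hb'
    obtain ⟨n, hn⟩ : ∃ n : ℕ, (e n : G) ∉ D b' := by
      by_contra h
      push Not at h
      have hinj : Function.Injective (fun n : ℕ => (e n : G)) := by
        intro n m hnm
        exact e.injective (Subtype.ext hnm)
      have : (Set.range (fun n : ℕ => (e n : G))).Finite := by
        apply Set.Finite.subset (D b').finite_toSet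
        rintro _ ⟨n, rfl⟩
        exact h n
      exact Set.infinite_range_of_injective hinj this
    refine Set.mem_iUnion.2 ⟨n, ?_⟩
    by_cases h1 : b' ∈ D (e n)
    · exact Or.inl (Or.inr h1)
    · by_cases h2 : b' = (e n : G)
      · exact Or.inr h2
      · exact Or.inl (Or.inl ⟨hb', hn, h1, h2⟩)
  refine Set.Countable.mono hsub ?_
  refine Set.countable_iUnion fun n => ?_
  exact ((hcon _ (e n).2).union (D (e n)).countable_toSet).union (Set.countable_singleton _)

lemma free_family {G : Type} (D : G → Finset G) (N : ℕ) :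
    ∀ X : Set G, ¬ X.Countable →
      ∃ t : Fin N → G, (∀ i, t i ∈ X) ∧ ∀ i j, i ≠ j → t i ≠ t j ∧ t j ∉ D (t i) := by
  induction N with
  | zero =>
    intro X _
    exact ⟨fun i => i.elim0, fun i => i.elim0, fun i => i.elim0⟩
  | succ N ih =>
    intro X hX
    obtain ⟨b, hbX, hb⟩ := free_step D X hX
    obtain ⟨t, ht1, ht2⟩ := ih _ hb
    refine ⟨Fin.cons b t, ?_, ?_⟩
    · intro i
      refine Fin.cases ?_ ?_ i
      · simpa using hbX
      · intro j
        simpa using (ht1 j).1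
    · intro i j
      refine Fin.cases ?_ ?_ i
      · refine Fin.cases ?_ ?_ j
        · intro h; exact absurd rfl h
        · intro j' _
          have := ht1 j'
          simp only [Fin.cons_zero, Fin.cons_succ]
          exact ⟨fun h => this.2.2.2 h.symm, this.2.2.1⟩
      · intro i'
        refine Fin.cases ?_ ?_ j
        · intro _
          have := ht1 i'
          simp only [Fin.cons_zero, Fin.cons_succ]
          exact ⟨this.2.2.2, this.2.1⟩
        · intro j' hij
          simp only [Fin.cons_succ]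
          exact ht2 i' j' (fun h => hij (by rw [h]))

/-- free families indexed by any finite type -/
lemma free_fintype {G ι : Type} [Fintype ι] (D : G → Finset G) (X : Set G)
    (hX : ¬ X.Countable) :
    ∃ t : ι → G, (∀ i, t i ∈ X) ∧ ∀ i j, i ≠ j → t i ≠ t j ∧ t j ∉ D (t i) := by
  obtain ⟨t, h1, h2⟩ := free_family D (Fintype.card ι) X hX
  refine ⟨fun i => t (Fintype.equivFin ι i), fun i => h1 _, fun i j hij => h2 _ _ ?_⟩
  intro h
  exact hij ((Fintype.equivFin ι).injective h)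

/-! ### Numerical radius controls the norm on `C(K)` -/

set_option linter.unusedSectionVars false

section CK
variable {K : Type} [TopologicalSpace K] [CompactSpace K]

/-- tent function around the value of `z` at `p` -/
noncomputable def tent (z : C(K, ℝ)) (p : K) (c : ℝ) : C(K, ℝ) :=
  ⟨fun k => max 0 (1 - |z k - z p| / c), by fun_prop⟩

lemma tent_apply (z : C(K, ℝ)) (p : K) (c : ℝ) (k : K) :
    tent z p c k = max 0 (1 - |z k - z p| / c) := rfl

lemma tent_self (z : C(K, ℝ)) (p : K) (c : ℝ) : tent z p c p = 1 := by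
  simp [tent_apply]

lemma tent_nonneg (z : C(K, ℝ)) (p : K) (c : ℝ) (k : K) : 0 ≤ tent z p c k := by
  simp [tent_apply]

lemma tent_le_one (z : C(K, ℝ)) (p : K) {c : ℝ} (hc : 0 < c) (k : K) : tent z p c k ≤ 1 := by
  rw [tent_apply]
  apply max_le (by norm_num)
  have : 0 ≤ |z k - z p| / c := by positivity
  linarith

lemma tent_pos (z : C(K, ℝ)) (p : K) {c : ℝ} (hc : 0 < c) (k : K) (h : 0 < tent z p c k) :
    |z k - z p| < c := by
  rw [tent_apply] at h
  have h1 : 0 < 1 - |z k - z p| / c := by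
    by_contra hh
    push Not at hh
    rw [max_eq_left hh] at h
    exact lt_irrefl _ h
  have : |z k - z p| / c < 1 := by linarith
  rwa [div_lt_one hc] at this

lemma norm_eval_le (p : K) : ‖(ContinuousMap.evalCLM ℝ p : C(K, ℝ) →L[ℝ] ℝ)‖ ≤ 1 := by
  refine ContinuousLinearMap.opNorm_le_bound _ zero_le_one fun z => ?_
  simpa using z.norm_coe_le_norm p

lemma norm_eval (p : K) : ‖(ContinuousMap.evalCLM ℝ p : C(K, ℝ) →L[ℝ] ℝ)‖ = 1 := by
  refine le_antisymm (norm_eval_le p) ?_
  have h := (ContinuousMap.evalCLM ℝ p : C(K, ℝ) →L[ℝ] ℝ).le_opNorm 1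
  have h1 : ‖(1 : C(K, ℝ))‖ ≤ 1 := by
    rw [ContinuousMap.norm_le _ zero_le_one]
    intro x; simp
  have h2 : ‖(ContinuousMap.evalCLM ℝ p : C(K, ℝ) →L[ℝ] ℝ) 1‖ = 1 := by simp
  rw [h2] at h
  nlinarith [norm_nonneg (ContinuousMap.evalCLM ℝ p : C(K, ℝ) →L[ℝ] ℝ)]

/-- If `|h (S z)| ≤ 1` for every state `(z, h)`, then `‖S‖ ≤ 1`, pointwise version. -/
lemma le_one_of_numradius (S : C(K, ℝ) →L[ℝ] C(K, ℝ))
    (hS : ∀ (z : C(K, ℝ)) (h : C(K, ℝ) →L[ℝ] ℝ), ‖z‖ = 1 → ‖h‖ = 1 → h z = 1 → |h (S z)| ≤ 1)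
    (z : C(K, ℝ)) (hz : ‖z‖ ≤ 1) (k : K) : |S z k| ≤ 1 := by
  have hzk : ∀ k, |z k| ≤ 1 := fun k => by
    have := (ContinuousMap.norm_le z zero_le_one).1 hz k
    simpa using this
  -- it suffices to show the estimate up to an error `c * ‖S‖`
  suffices H : ∀ c : ℝ, 0 < c → |S z k| ≤ 1 + c * ‖S‖ by
    by_contra hcon
    push Not at hcon
    have h0 : 0 ≤ ‖S‖ := S.opNorm_nonneg
    have := H ((|S z k| - 1) / (2 * (‖S‖ + 1))) (by apply div_pos <;> linarith)
    have h2 : (|S z k| - 1) / (2 * (‖S‖ + 1)) * ‖S‖ ≤ (|S z k| - 1) / 2 := by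
      rw [div_mul_eq_mul_div, div_le_div_iff₀ (by positivity) (by norm_num)]
      nlinarith
    linarith
  intro c hc
  set φ := tent z k c with hφ
  have hφk : φ k = 1 := tent_self z k c
  have hφ0 : ∀ x, 0 ≤ φ x := tent_nonneg z k c
  have hφ1 : ∀ x, φ x ≤ 1 := tent_le_one z k hc
  set f₁ : C(K, ℝ) := (1 - φ) * z + φ with hf₁
  set f₂ : C(K, ℝ) := (1 - φ) * z - φ with hf₂
  have hf₁k : f₁ k = 1 := by simp [hf₁, hφk]
  have hf₂k : f₂ k = -1 := by simp [hf₂, hφk]
  have hb₁ : ‖f₁‖ ≤ 1 := by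
    rw [ContinuousMap.norm_le _ zero_le_one]
    intro x
    have h1 := abs_le.1 (hzk x)
    rw [Real.norm_eq_abs, abs_le]
    simp only [hf₁, ContinuousMap.add_apply, ContinuousMap.mul_apply, ContinuousMap.sub_apply,
      ContinuousMap.one_apply]
    constructor <;> nlinarith [hφ0 x, hφ1 x]
  have hb₂ : ‖f₂‖ ≤ 1 := by
    rw [ContinuousMap.norm_le _ zero_le_one]
    intro x
    have h1 := abs_le.1 (hzk x)
    rw [Real.norm_eq_abs, abs_le]
    simp only [hf₂, ContinuousMap.sub_apply, ContinuousMap.mul_apply, ContinuousMap.one_apply]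
    constructor <;> nlinarith [hφ0 x, hφ1 x]
  have hn₁ : ‖f₁‖ = 1 := by
    refine le_antisymm hb₁ ?_
    have := f₁.norm_coe_le_norm k
    rw [hf₁k] at this
    simpa using this
  have hn₂ : ‖f₂‖ = 1 := by
    refine le_antisymm hb₂ ?_
    have := f₂.norm_coe_le_norm k
    rw [hf₂k] at this
    simpa using this
  have e₁ : |S f₁ k| ≤ 1 := by
    have := hS f₁ (ContinuousMap.evalCLM ℝ k) hn₁ (norm_eval k) (by simpa using hf₁k)
    simpa using this
  have e₂ : |S f₂ k| ≤ 1 := by
    have := hS f₂ (-(ContinuousMap.evalCLM ℝ k)) hn₂ (by rw [ContinuousLinearMap.opNorm_neg]; exact norm_eval k)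
      (by simp [hf₂k])
    simpa using this
  -- the convex combination
  set l : ℝ := (1 + z k) / 2 with hl
  have hl0 : 0 ≤ l := by have := (abs_le.1 (hzk k)).1; rw [hl]; linarith
  have hl1 : l ≤ 1 := by have := (abs_le.1 (hzk k)).2; rw [hl]; linarith
  set r : C(K, ℝ) := z - (l • f₁ + (1 - l) • f₂) with hr
  have hrn : ‖r‖ ≤ c := by
    rw [ContinuousMap.norm_le _ hc.le]
    intro x
    have hrx : r x = φ x * (z x - z k) := by
      simp only [hr, hf₁, hf₂, hl, ContinuousMap.add_apply, ContinuousMap.mul_apply,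
        ContinuousMap.sub_apply, ContinuousMap.one_apply, ContinuousMap.smul_apply, smul_eq_mul]
      ring
    rw [hrx, Real.norm_eq_abs, abs_mul, abs_of_nonneg (hφ0 x)]
    rcases (hφ0 x).eq_or_lt with h | h
    · rw [← h]; simp [hc.le]
    · have := tent_pos z k hc x h
      nlinarith [hφ1 x, abs_nonneg (z x - z k)]
  have hSr : |S r k| ≤ c * ‖S‖ := by
    have h1 := (S r).norm_coe_le_norm k
    have h2 := S.le_opNorm r
    rw [Real.norm_eq_abs] at h1
    nlinarith [norm_nonneg S, norm_nonneg r]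
  have hdec : S z k = S r k + l * S f₁ k + (1 - l) * S f₂ k := by
    have : z = r + (l • f₁ + (1 - l) • f₂) := by rw [hr]; abel
    conv_lhs => rw [this]
    simp only [map_add, map_smul, ContinuousMap.add_apply, ContinuousMap.smul_apply, smul_eq_mul]
    ring
  have a1 := abs_le.1 e₁
  have a2 := abs_le.1 e₂
  have a3 := abs_le.1 hSr
  rw [hdec, abs_le]
  constructor <;> nlinarith

/-- A functional close to a point evaluation that peaks at `w` forces `w p = 1`. -/
lemma peak (w : C(K, ℝ)) (hw : ‖w‖ ≤ 1) (g : C(K, ℝ) →L[ℝ] ℝ) (hg : ‖g‖ ≤ 1) (hgw : g w = 1)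
    (p : K) (hp : ‖(ContinuousMap.evalCLM ℝ p : C(K, ℝ) →L[ℝ] ℝ) - g‖ < 1) : w p = 1 := by
  have hwk : ∀ k, |w k| ≤ 1 := fun k => by
    have := (ContinuousMap.norm_le w zero_le_one).1 hw k
    simpa using this
  by_contra hne
  have hlt : w p < 1 := lt_of_le_of_ne (abs_le.1 (hwk p)).2 hne
  set c : ℝ := (1 - w p) / 2 with hc
  have hc0 : 0 < c := by rw [hc]; linarith
  have hc1 : c ≤ 1 := by have := (abs_le.1 (hwk p)).1; rw [hc]; linarith
  set φ := tent w p c with hφ
  have hφp : φ p = 1 := tent_self w p c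
  have hφ0 : ∀ x, 0 ≤ φ x := tent_nonneg w p c
  have hφ1 : ∀ x, φ x ≤ 1 := tent_le_one w p hc0
  have hφn : ‖φ‖ ≤ 1 := by
    rw [ContinuousMap.norm_le _ zero_le_one]
    intro x
    rw [Real.norm_eq_abs, abs_of_nonneg (hφ0 x)]
    exact hφ1 x
  have hz : ‖w + c • φ‖ ≤ 1 := by
    rw [ContinuousMap.norm_le _ zero_le_one]
    intro x
    have h1 := abs_le.1 (hwk x)
    rw [Real.norm_eq_abs, abs_le]
    simp only [ContinuousMap.add_apply, ContinuousMap.smul_apply, smul_eq_mul]
    constructor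
    · nlinarith [hφ0 x]
    · rcases (hφ0 x).eq_or_lt with h | h
      · rw [← h]; simp [h1.2]
      · have h3 := tent_pos w p hc0 x h
        have h4 := (abs_lt.1 h3).2
        have : w x < 1 - c := by rw [hc] at h4 ⊢; linarith
        nlinarith [hφ1 x]
  have h1 : g (w + c • φ) ≤ 1 := by
    have := (le_abs_self _).trans (g.le_opNorm (w + c • φ))
    nlinarith [norm_nonneg g, norm_nonneg (w + c • φ)]
  have h2 : g (w + c • φ) = 1 + c * g φ := by
    rw [map_add, map_smul, hgw, smul_eq_mul]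
  have h3 : 0 < g φ := by
    have h4 := ((ContinuousMap.evalCLM ℝ p : C(K, ℝ) →L[ℝ] ℝ) - g).le_opNorm φ
    rw [_root_.sub_apply] at h4
    have h5 : (ContinuousMap.evalCLM ℝ p : C(K, ℝ) →L[ℝ] ℝ) φ = 1 := by simpa using hφp
    rw [h5, Real.norm_eq_abs] at h4
    have h6 := (le_abs_self _).trans h4
    nlinarith [norm_nonneg ((ContinuousMap.evalCLM ℝ p : C(K, ℝ) →L[ℝ] ℝ) - g), norm_nonneg φ]
  nlinarith

end CK

end Pool.Agent.Lib.MP_8d1505_an
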