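import Mathlib
import Pool.Agent.Lib.MP_8d1505_an.Basic

set_option autoImplicit false
set_option linter.unusedSectionVars false

namespace Pool.Agent.Lib.MP_8d1505_an

open Set Filter Topology

/-- an uncountable set, with the discrete topology -/
def G : Type := ℝ
instance : TopologicalSpace G := ⊥
instance : DiscreteTopology G := ⟨rfl⟩

lemma G_uncountable : ¬ (Set.univ : Set G).Countable := by
  have h : ¬ (Set.univ : Set ℝ).Countable := Set.not_countable_univ
  exact h

/-- the row space: countably many rows, each the one point compactification of `G` -/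
abbrev L : Type := OnePoint ℕ × OnePoint G

/-- the closed unit ball of the dual of `C(L)`, with the weak-* topology -/
abbrev M : Type := ↥(WeakDual.polar ℝ (Metric.closedBall (0 : C(L, ℝ)) 1))

instance : CompactSpace M :=
  isCompact_iff_compactSpace.1
    (WeakDual.isCompact_polar ℝ (Metric.closedBall_mem_nhds (0 : C(L, ℝ)) one_pos))

abbrev K : Type := L ⊕ M

/-- restriction of a function on `K` to `L` -/
noncomputable def resL (f : C(K, ℝ)) : C(L, ℝ) := f.comp ⟨Sum.inl, continuous_inl⟩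

lemma resL_apply (f : C(K, ℝ)) (l : L) : resL f l = f (Sum.inl l) := rfl

lemma norm_resL_le (f : C(K, ℝ)) : ‖resL f‖ ≤ ‖f‖ := by
  rw [ContinuousMap.norm_le _ (norm_nonneg _)]
  intro l
  exact f.norm_coe_le_norm _

lemma M_le (σ : M) (f : C(L, ℝ)) : |σ.1 f| ≤ ‖f‖ := by
  obtain ⟨τ, hτ⟩ := σ
  have h1 : ∀ z : C(L, ℝ), ‖z‖ ≤ 1 → |τ z| ≤ 1 := by
    intro z hz
    exact hτ z (by simpa using hz)
  rcases (norm_nonneg f).eq_or_lt with h0 | h0
  · have : f = 0 := by simpa using h0.symm
    subst this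
    simp
  · have h2 := h1 (‖f‖⁻¹ • f) (by rw [norm_smul, norm_inv, norm_norm, inv_mul_cancel₀ h0.ne'])
    rw [map_smul, smul_eq_mul, abs_mul, abs_inv, abs_norm] at h2
    rw [inv_mul_le_iff₀ h0, mul_one] at h2
    exact h2

lemma continuous_evalM (f : C(L, ℝ)) : Continuous (fun σ : M => σ.1 f) :=
  (WeakDual.eval_continuous f).comp continuous_subtype_val

/-- The operator: `T f (σ) = σ (f|_L)` on the dual ball, and `T f = 0` on `L`. -/
noncomputable def Tfun (f : C(K, ℝ)) : C(K, ℝ) :=
  ⟨Sum.elim (fun _ => 0) (fun σ => σ.1 (resL f)),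
    continuous_const.sumElim (continuous_evalM _)⟩

lemma Tfun_inl (f : C(K, ℝ)) (l : L) : Tfun f (Sum.inl l) = 0 := rfl
lemma Tfun_inr (f : C(K, ℝ)) (σ : M) : Tfun f (Sum.inr σ) = σ.1 (resL f) := rfl

lemma norm_Tfun_le (f : C(K, ℝ)) : ‖Tfun f‖ ≤ 1 * ‖f‖ := by
  rw [one_mul, ContinuousMap.norm_le _ (norm_nonneg _)]
  rintro (l | σ)
  · rw [Tfun_inl]; simp
  · rw [Tfun_inr, Real.norm_eq_abs]
    exact (M_le σ _).trans (norm_resL_le f)

noncomputable def T : C(K, ℝ) →L[ℝ] C(K, ℝ) :=
  LinearMap.mkContinuous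
    { toFun := Tfun
      map_add' := by
        intro f g
        ext k
        rcases k with l | σ
        · simp [Tfun_inl]
        · rw [ContinuousMap.add_apply, Tfun_inr, Tfun_inr, Tfun_inr, ← map_add]; rfl
      map_smul' := by
        intro c f
        ext k
        rcases k with l | σ
        · simp [Tfun_inl]
        · rw [RingHom.id_apply, ContinuousMap.smul_apply, Tfun_inr, Tfun_inr, ← map_smul]; rfl }
    1 norm_Tfun_le

lemma T_inr (f : C(K, ℝ)) (σ : M) : T f (Sum.inr σ) = σ.1 (resL f) := rfl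

lemma norm_T_le : ‖T‖ ≤ 1 := LinearMap.mkContinuous_norm_le _ zero_le_one _

/-- extension by zero of a function on `L` -/
noncomputable def ext0 (u : C(L, ℝ)) : C(K, ℝ) :=
  ⟨Sum.elim u (fun _ => 0), u.continuous.sumElim continuous_const⟩

lemma ext0_inl (u : C(L, ℝ)) (l : L) : ext0 u (Sum.inl l) = u l := rfl
lemma ext0_inr (u : C(L, ℝ)) (σ : M) : ext0 u (Sum.inr σ) = 0 := rfl

lemma ext0_add (u v : C(L, ℝ)) : ext0 (u + v) = ext0 u + ext0 v := by
  ext k; rcases k with l | σ
  · rfl
  · simp [ext0_inr]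

lemma ext0_sub (u v : C(L, ℝ)) : ext0 (u - v) = ext0 u - ext0 v := by
  ext k; rcases k with l | σ
  · rfl
  · simp [ext0_inr]

lemma ext0_sum {ι : Type} (s : Finset ι) (u : ι → C(L, ℝ)) :
    ext0 (∑ i ∈ s, u i) = ∑ i ∈ s, ext0 (u i) := by
  classical
  induction s using Finset.induction_on with
  | empty => ext k; rcases k with l | σ <;> simp [ext0_inl, ext0_inr]
  | insert a s ha ih => rw [Finset.sum_insert ha, Finset.sum_insert ha, ext0_add, ih]

/-- indicator function of a clopen set -/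
noncomputable def ind (s : Set L) (hs : IsClopen s) : C(L, ℝ) :=
  ⟨s.indicator 1, by
    have h := (LocallyConstant.charFn ℝ hs).continuous
    rwa [LocallyConstant.coe_charFn] at h⟩

lemma ind_mem (s : Set L) (hs : IsClopen s) (l : L) (h : l ∈ s) : ind s hs l = 1 := by
  simp [ind, h]

lemma ind_notMem (s : Set L) (hs : IsClopen s) (l : L) (h : l ∉ s) : ind s hs l = 0 := by
  simp [ind, h]

lemma isClopen_coe {X : Type} [TopologicalSpace X] [DiscreteTopology X] (x : X) :
    IsClopen ({(x : OnePoint X)} : Set (OnePoint X)) := by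
  refine ⟨isClosed_singleton, ?_⟩
  have h : ({(x : OnePoint X)} : Set (OnePoint X)) = (fun y : X => (y : OnePoint X)) '' {x} := by
    simp
  rw [h]
  exact OnePoint.isOpenEmbedding_coe.isOpenMap _ (isOpen_discrete _)

lemma clV (a : ℕ) : IsClopen ((Prod.fst : L → OnePoint ℕ) ⁻¹' {(a : OnePoint ℕ)}) :=
  (isClopen_coe a).preimage continuous_fst

lemma clE (a : ℕ) (b : G) : IsClopen ({((a : OnePoint ℕ), (b : OnePoint G))} : Set L) := by
  rw [← Set.singleton_prod_singleton]
  exact (isClopen_coe a).prod (isClopen_coe b)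

/-- indicator of the row `a` -/
noncomputable def V (a : ℕ) : C(L, ℝ) := ind _ (clV a)

/-- indicator of the point `(a, b)` -/
noncomputable def E (a : ℕ) (b : G) : C(L, ℝ) := ind _ (clE a b)

lemma V_apply (a : ℕ) (l : L) [Decidable (l.1 = (a : OnePoint ℕ))] :
    V a l = if l.1 = (a : OnePoint ℕ) then 1 else 0 := by
  split_ifs with h
  · exact ind_mem _ _ _ h
  · exact ind_notMem _ _ _ h

lemma E_apply (a : ℕ) (b : G) (l : L) [Decidable (l = ((a : OnePoint ℕ), (b : OnePoint G)))] :
    E a b l = if l = ((a : OnePoint ℕ), (b : OnePoint G)) then 1 else 0 := by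
  split_ifs with h
  · exact ind_mem _ _ _ h
  · exact ind_notMem _ _ _ h

end Pool.Agent.Lib.MP_8d1505_an
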