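import Mathlib
import Pool.Agent.Lib.MP_8d1505_an.Space

set_option autoImplicit false
set_option linter.unusedSectionVars false

namespace Pool.Agent.Lib.MP_8d1505_an

open Set Filter Topology

/-- the functional `s * (∑ a, δ_(a, b a) + δ_(i, β) - δ_(i, ∞))` with `s = 1 / (m + 2)` -/
noncomputable def confFun (m : ℕ) (i : Fin m) (p : (Fin m → OnePoint G) × OnePoint G) :
    WeakDual ℝ C(L, ℝ) :=
  StrongDual.toWeakDual ((((m : ℝ) + 2)⁻¹ •
    ((∑ a : Fin m, (ContinuousMap.evalCLM ℝ (((a : ℕ) : OnePoint ℕ), p.1 a) : C(L, ℝ) →L[ℝ] ℝ))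
      + ContinuousMap.evalCLM ℝ (((i : ℕ) : OnePoint ℕ), p.2)
      - ContinuousMap.evalCLM ℝ (((i : ℕ) : OnePoint ℕ), (OnePoint.infty : OnePoint G))) :
      C(L, ℝ) →L[ℝ] ℝ))

lemma confFun_apply (m : ℕ) (i : Fin m) (p : (Fin m → OnePoint G) × OnePoint G) (f : C(L, ℝ)) :
    confFun m i p f = ((m : ℝ) + 2)⁻¹ *
      ((∑ a : Fin m, f (((a : ℕ) : OnePoint ℕ), p.1 a)) + f (((i : ℕ) : OnePoint ℕ), p.2)
        - f (((i : ℕ) : OnePoint ℕ), (OnePoint.infty : OnePoint G))) := by
  change ((((m : ℝ) + 2)⁻¹ •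
    ((∑ a : Fin m, (ContinuousMap.evalCLM ℝ (((a : ℕ) : OnePoint ℕ), p.1 a) : C(L, ℝ) →L[ℝ] ℝ))
      + ContinuousMap.evalCLM ℝ (((i : ℕ) : OnePoint ℕ), p.2)
      - ContinuousMap.evalCLM ℝ (((i : ℕ) : OnePoint ℕ), (OnePoint.infty : OnePoint G))) :
      C(L, ℝ) →L[ℝ] ℝ)) f = _
  simp [sum_apply]

lemma confFun_mem (m : ℕ) (i : Fin m) (p : (Fin m → OnePoint G) × OnePoint G) :
    confFun m i p ∈ WeakDual.polar ℝ (Metric.closedBall (0 : C(L, ℝ)) 1) := by
  intro f hf
  have hf1 : ‖f‖ ≤ 1 := by simpa using hf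
  have hb : ∀ l : L, |f l| ≤ 1 := fun l => (f.norm_coe_le_norm l).trans hf1
  have h1 : |∑ a : Fin m, f (((a : ℕ) : OnePoint ℕ), p.1 a)| ≤ m := by
    refine (Finset.abs_sum_le_sum_abs _ _).trans ?_
    refine (Finset.sum_le_sum fun a _ => hb _).trans ?_
    simp
  have h2 := abs_le.1 (hb (((i : ℕ) : OnePoint ℕ), p.2))
  have h3 := abs_le.1 (hb (((i : ℕ) : OnePoint ℕ), (OnePoint.infty : OnePoint G)))
  have h4 := abs_le.1 h1
  have hm : (0 : ℝ) < (m : ℝ) + 2 := by positivity
  have h5 : ‖confFun m i p f‖ ≤ 1 := by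
    rw [confFun_apply, Real.norm_eq_abs, abs_mul, abs_inv, abs_of_pos hm, inv_mul_le_iff₀ hm,
      mul_one, abs_le]
    constructor <;> linarith
  exact h5

noncomputable def conf (m : ℕ) (i : Fin m) (p : (Fin m → OnePoint G) × OnePoint G) : M :=
  ⟨confFun m i p, confFun_mem m i p⟩

lemma conf_apply (m : ℕ) (i : Fin m) (p : (Fin m → OnePoint G) × OnePoint G) (f : C(L, ℝ)) :
    (conf m i p).1 f = ((m : ℝ) + 2)⁻¹ *
      ((∑ a : Fin m, f (((a : ℕ) : OnePoint ℕ), p.1 a)) + f (((i : ℕ) : OnePoint ℕ), p.2)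
        - f (((i : ℕ) : OnePoint ℕ), (OnePoint.infty : OnePoint G))) :=
  confFun_apply m i p f

lemma continuous_conf (m : ℕ) (i : Fin m) : Continuous (conf m i) := by
  refine Continuous.subtype_mk ?_ _
  refine WeakDual.continuous_of_continuous_eval fun f => ?_
  simp only [confFun_apply]
  fun_prop

lemma M_ext {σ τ : M} (h : ∀ f : C(L, ℝ), σ.1 f = τ.1 f) : σ = τ :=
  Subtype.ext (DFunLike.ext _ _ h)

/-- honest configurations do not depend on the row index -/
lemma conf_infty (m : ℕ) (i j : Fin m) (b : Fin m → OnePoint G) :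
    conf m i (b, OnePoint.infty) = conf m j (b, OnePoint.infty) := by
  apply M_ext
  intro f
  rw [conf_apply, conf_apply]
  simp

/-- symmetry of the bad configurations -/
lemma conf_swap (m : ℕ) (i : Fin m) (b : Fin m → OnePoint G) (β : OnePoint G) :
    conf m i (b, β) = conf m i (Function.update b i β, b i) := by
  apply M_ext
  intro f
  rw [conf_apply, conf_apply]
  congr 2
  have h1 : ∑ a : Fin m, f (((a : ℕ) : OnePoint ℕ), (Function.update b i β) a)
      = ∑ a : Fin m, f (((a : ℕ) : OnePoint ℕ), b a)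
        - f (((i : ℕ) : OnePoint ℕ), b i) + f (((i : ℕ) : OnePoint ℕ), β) := by
    rw [← Finset.add_sum_erase Finset.univ _ (Finset.mem_univ i),
      ← Finset.add_sum_erase Finset.univ (fun a : Fin m => f (((a : ℕ) : OnePoint ℕ), b a))
        (Finset.mem_univ i)]
    rw [Function.update_self]
    have : ∑ x ∈ Finset.univ.erase i, f (((x : ℕ) : OnePoint ℕ), (Function.update b i β) x)
        = ∑ x ∈ Finset.univ.erase i, f (((x : ℕ) : OnePoint ℕ), b x) := by
      refine Finset.sum_congr rfl fun x hx => ?_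
      rw [Function.update_of_ne (Finset.ne_of_mem_erase hx)]
    rw [this]
    ring
  rw [h1]
  ring

lemma finite_of_mem_nhds_infty (s : Set (OnePoint G)) (hs : s ∈ 𝓝 (OnePoint.infty : OnePoint G)) :
    {g : G | (g : OnePoint G) ∉ s}.Finite := by
  rw [OnePoint.nhds_infty_eq, Filter.mem_sup, Filter.mem_map] at hs
  have h1 := Filter.mem_coclosedCompact_iff.1 hs.1
  refine (h1.finite_of_discrete).subset ?_
  intro g hg
  exact subset_closure hg

/-- `y` is `D`-near to `x` -/
def Near (D : Finset G) (x y : OnePoint G) : Prop :=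
  y = x ∨ (x = OnePoint.infty ∧ ∀ g ∈ D, y ≠ (g : OnePoint G))

lemma exists_near (x : OnePoint G) (s : Set (OnePoint G)) (hs : s ∈ 𝓝 x) :
    ∃ D : Finset G, ∀ D' : Finset G, D ⊆ D' → ∀ y, Near D' x y → y ∈ s := by
  by_cases hx : x = OnePoint.infty
  · subst hx
    have hfin := finite_of_mem_nhds_infty s hs
    refine ⟨hfin.toFinset, fun D' hD' y hy => ?_⟩
    rcases hy with hy | ⟨_, hy⟩
    · rw [hy]; exact mem_of_mem_nhds hs
    · induction y using OnePoint.rec with
      | infty => exact mem_of_mem_nhds hs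
      | coe g =>
        by_contra hg
        exact hy g (hD' (by simpa using hg)) rfl
  · refine ⟨∅, fun D' _ y hy => ?_⟩
    rcases hy with hy | ⟨hy, _⟩
    · rw [hy]; exact mem_of_mem_nhds hs
    · exact absurd hy hx

lemma conf_limit (m : ℕ) (i : Fin m) (F : M → ℝ) (hF : Continuous F)
    (P : (Fin m → OnePoint G) × OnePoint G) (η : ℝ) (hη : 0 < η) :
    ∃ D : Finset G, ∀ D' : Finset G, D ⊆ D' → ∀ (b : Fin m → OnePoint G) (β : OnePoint G),
      (∀ a, Near D' (P.1 a) (b a)) → Near D' P.2 β →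
      |F (conf m i (b, β)) - F (conf m i P)| < η := by
  classical
  have hc : Continuous (fun p => F (conf m i p)) := hF.comp (continuous_conf m i)
  have hU : {p | |F (conf m i p) - F (conf m i P)| < η} ∈ 𝓝 P := by
    have := hc.continuousAt (x := P)
    rw [Metric.continuousAt_iff'] at this
    have := this η hη
    simp only [Real.dist_eq] at this
    exact this
  obtain ⟨P1, P2⟩ := P
  rw [nhds_prod_eq, Filter.mem_prod_iff] at hU
  obtain ⟨t1, ht1, t2, ht2, hsub⟩ := hU
  rw [nhds_pi, Filter.mem_pi] at ht1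
  obtain ⟨I, hI, t, ht, htsub⟩ := ht1
  choose D hD using fun a => exists_near (P1 a) (t a) (ht a)
  obtain ⟨D2, hD2⟩ := exists_near P2 t2 ht2
  refine ⟨Finset.univ.biUnion D ∪ D2, fun D' hD' b β hb hβ => ?_⟩
  have h1 : b ∈ t1 := by
    apply htsub
    intro a _
    refine hD a D' ?_ (b a) (hb a)
    refine Finset.Subset.trans ?_ (Finset.Subset.trans Finset.subset_union_left hD')
    exact Finset.subset_biUnion_of_mem D (Finset.mem_univ a)
  have h2 : β ∈ t2 := hD2 D' (Finset.Subset.trans Finset.subset_union_right hD') β hβ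
  exact hsub (Set.mk_mem_prod h1 h2)

end Pool.Agent.Lib.MP_8d1505_an
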