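import Mathlib
import Pool.Agent.Lib.MP_8d1505_an.Conf

set_option autoImplicit false
set_option linter.unusedSectionVars false

namespace Pool.Agent.Lib.MP_8d1505_an

open Set Filter Topology

section core

variable (S : C(K, ℝ) →L[ℝ] C(K, ℝ)) (y : C(K, ℝ))

/-- `R u σ = S (y * u) (σ)` for `u` a function on `L`, extended by zero. -/
noncomputable def R (u : C(L, ℝ)) (σ : M) : ℝ := S (y * ext0 u) (Sum.inr σ)

lemma R_continuous (u : C(L, ℝ)) : Continuous (R S y u) :=
  (S (y * ext0 u)).continuous.comp continuous_inr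

lemma R_add (u v : C(L, ℝ)) (σ : M) : R S y (u + v) σ = R S y u σ + R S y v σ := by
  simp [R, ext0_add, mul_add]

lemma R_sub (u v : C(L, ℝ)) (σ : M) : R S y (u - v) σ = R S y u σ - R S y v σ := by
  simp [R, ext0_sub, mul_sub]

lemma R_sum {ι : Type} (s : Finset ι) (u : ι → C(L, ℝ)) (σ : M) :
    R S y (∑ i ∈ s, u i) σ = ∑ i ∈ s, R S y (u i) σ := by
  classical
  induction s using Finset.induction_on with
  | empty =>
    have : ext0 0 = 0 := by ext k; rcases k with l | τ <;> rfl
    simp [R, this]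
  | insert a s ha ih => rw [Finset.sum_insert ha, Finset.sum_insert ha, R_add, ih]

variable (hS1 : ∀ z : C(K, ℝ), ‖z‖ ≤ 1 → ∀ k, |S z k| ≤ 1) (hy : ‖y‖ ≤ 1)

include hy in
lemma y_le (k : K) : |y k| ≤ 1 := (y.norm_coe_le_norm k).trans hy

include hS1 hy in
lemma R_ge (u : C(L, ℝ)) (hu0 : ∀ l, 0 ≤ u l) (hu1 : ∀ l, u l ≤ 1) (σ : M) :
    -(1 - S y (Sum.inr σ)) / 2 ≤ R S y u σ := by
  have hz : ‖y * (1 - (2 : ℝ) • ext0 u)‖ ≤ 1 := by
    rw [ContinuousMap.norm_le _ zero_le_one]
    intro k
    have h1 := y_le y hy k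
    have h2 : |(1 - (2 : ℝ) • ext0 u) k| ≤ 1 := by
      rcases k with l | τ
      · have := hu0 l
        have := hu1 l
        rw [abs_le]
        simp only [ContinuousMap.sub_apply, ContinuousMap.one_apply, ContinuousMap.smul_apply,
          ext0_inl, smul_eq_mul]
        constructor <;> linarith
      · simp [ext0_inr]
    rw [ContinuousMap.mul_apply, Real.norm_eq_abs, abs_mul]
    nlinarith [abs_nonneg (y k), abs_nonneg ((1 - (2 : ℝ) • ext0 u) k)]
  have h := (abs_le.1 (hS1 _ hz (Sum.inr σ))).2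
  have h2 : y * (1 - (2 : ℝ) • ext0 u) = y - (2 : ℝ) • (y * ext0 u) := by
    ext k
    simp only [ContinuousMap.mul_apply, ContinuousMap.sub_apply, ContinuousMap.one_apply,
      ContinuousMap.smul_apply, smul_eq_mul]
    ring
  rw [h2, map_sub, map_smul] at h
  simp only [ContinuousMap.sub_apply, ContinuousMap.smul_apply, smul_eq_mul] at h
  rw [R]
  linarith

/-- norm estimate for the product `y * ext0 u` -/
lemma norm_mul_ext0_le (hy : ‖y‖ ≤ 1) (u : C(L, ℝ)) (hu0 : ∀ l, 0 ≤ u l) (hu1 : ∀ l, u l ≤ 1) :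
    ‖y * ext0 u‖ ≤ 1 := by
  rw [ContinuousMap.norm_le _ zero_le_one]
  intro k
  have h1 := y_le y hy k
  have h2 : |ext0 u k| ≤ 1 := by
    rcases k with l | τ
    · rw [ext0_inl, abs_of_nonneg (hu0 l)]; exact hu1 l
    · simp [ext0_inr]
  rw [ContinuousMap.mul_apply, Real.norm_eq_abs, abs_mul]
  nlinarith [abs_nonneg (y k), abs_nonneg (ext0 u k)]

lemma sum_V_nonneg (m : ℕ) (l : L) : 0 ≤ (∑ a : Fin m, V a) l := by
  classical
  rw [ContinuousMap.sum_apply]
  refine Finset.sum_nonneg fun a _ => ?_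
  rw [V_apply]; split_ifs <;> norm_num

lemma sum_V_le (m : ℕ) (l : L) : (∑ a : Fin m, V a) l ≤ 1 := by
  classical
  rw [ContinuousMap.sum_apply]
  by_cases h : ∃ a : Fin m, l.1 = ((a : ℕ) : OnePoint ℕ)
  · obtain ⟨a, ha⟩ := h
    rw [Finset.sum_eq_single a]
    · rw [V_apply]; split_ifs <;> norm_num
    · intro c _ hca
      rw [V_apply, if_neg]
      intro hc
      rw [ha] at hc
      apply hca
      have := OnePoint.coe_injective hc
      exact (Fin.ext this).symm
    · intro h; exact absurd (Finset.mem_univ _) h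
  · rw [Finset.sum_eq_zero]
    · norm_num
    · intro c _
      rw [V_apply, if_neg]
      intro hc
      exact h ⟨c, hc⟩

lemma sum_E_nonneg (m : ℕ) (b : Fin m → G) (l : L) : 0 ≤ (∑ a : Fin m, E a (b a)) l := by
  classical
  rw [ContinuousMap.sum_apply]
  refine Finset.sum_nonneg fun a _ => ?_
  rw [E_apply]; split_ifs <;> norm_num

lemma sum_E_le (m : ℕ) (b : Fin m → G) (l : L) : (∑ a : Fin m, E a (b a)) l ≤ 1 := by
  classical
  refine le_trans ?_ (sum_V_le m l)
  rw [ContinuousMap.sum_apply, ContinuousMap.sum_apply]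
  refine Finset.sum_le_sum fun a _ => ?_
  rw [E_apply, V_apply]
  split_ifs with h1 h2 h2
  · exact le_rfl
  · exact absurd (by rw [h1]) h2
  · norm_num
  · exact le_rfl

lemma sum_E_self (m : ℕ) (b : Fin m → G) (a : Fin m) :
    1 ≤ (∑ c : Fin m, E c (b c)) (((a : ℕ) : OnePoint ℕ), ((b a : G) : OnePoint G)) := by
  classical
  rw [ContinuousMap.sum_apply]
  have h := Finset.single_le_sum (f := fun c : Fin m =>
    E c (b c) (((a : ℕ) : OnePoint ℕ), ((b a : G) : OnePoint G))) (s := Finset.univ)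
    (fun c _ => by rw [E_apply]; split_ifs <;> norm_num) (Finset.mem_univ a)
  refine le_trans ?_ h
  simp only [E_apply]
  simp

variable (hy1 : ‖(1 : C(K, ℝ)) - y‖ ≤ 1 / 10) (hTS : ‖T - S‖ ≤ 1 / 10)

include hS1 hy in
lemma sum_RV_le (m : ℕ) (σ : M) : ∑ a : Fin m, R S y (V a) σ ≤ 1 := by
  rw [← R_sum]
  exact (abs_le.1 (hS1 _ (norm_mul_ext0_le y hy _ (sum_V_nonneg m) (sum_V_le m)) _)).2

include hy hy1 hTS in
lemma sum_RE_ge (m : ℕ) (i : Fin m) (b : Fin m → G) :
    (m : ℝ) / (m + 2) * (9 / 10) - 1 / 10 ≤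
      ∑ a : Fin m, R S y (E a (b a)) (conf m i ((fun a => (b a : OnePoint G)), OnePoint.infty)) := by
  rw [← R_sum]
  set u : C(L, ℝ) := ∑ a : Fin m, E a (b a) with hu
  have hu0 : ∀ l, 0 ≤ u l := sum_E_nonneg m b
  have hu1 : ∀ l, u l ≤ 1 := sum_E_le m b
  have hn := norm_mul_ext0_le y hy u hu0 hu1
  set σ := conf m i ((fun a => (b a : OnePoint G)), OnePoint.infty) with hσ
  have h1 : |(T - S) (y * ext0 u) (Sum.inr σ)| ≤ 1 / 10 := by
    have h2 := ((T - S) (y * ext0 u)).norm_coe_le_norm (Sum.inr σ)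
    have h3 := (T - S).le_opNorm (y * ext0 u)
    have h4 : ‖T - S‖ * ‖y * ext0 u‖ ≤ 1 / 10 * 1 :=
      mul_le_mul hTS hn (norm_nonneg _) (by norm_num)
    rw [Real.norm_eq_abs] at h2
    linarith
  have h2 : (T - S) (y * ext0 u) (Sum.inr σ) = T (y * ext0 u) (Sum.inr σ) - R S y u σ := by
    simp [R]
  rw [h2] at h1
  have h3 : (m : ℝ) / (m + 2) * (9 / 10) ≤ T (y * ext0 u) (Sum.inr σ) := by
    rw [T_inr, hσ, conf_apply]
    have h4 : ∑ a : Fin m, ((9 : ℝ) / 10) ≤
        ∑ a : Fin m, (resL (y * ext0 u)) (((a : ℕ) : OnePoint ℕ), ((b a : G) : OnePoint G)) := by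
      refine Finset.sum_le_sum fun a _ => ?_
      rw [resL_apply, ContinuousMap.mul_apply, ext0_inl]
      have h5 : u (((a : ℕ) : OnePoint ℕ), ((b a : G) : OnePoint G)) = 1 :=
        le_antisymm (hu1 _) (sum_E_self m b a)
      rw [h5, mul_one]
      have h6 := ((1 : C(K, ℝ)) - y).norm_coe_le_norm
        (Sum.inl (((a : ℕ) : OnePoint ℕ), ((b a : G) : OnePoint G)))
      rw [Real.norm_eq_abs] at h6
      have h7 := (abs_le.1 (h6.trans hy1)).2
      simp only [ContinuousMap.sub_apply, ContinuousMap.one_apply] at h7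
      linarith
    rw [Finset.sum_const, Finset.card_univ, Fintype.card_fin, nsmul_eq_mul] at h4
    have hm : (0 : ℝ) < (m : ℝ) + 2 := by positivity
    rw [div_mul_eq_mul_div, div_le_iff₀ hm]
    rw [mul_comm _ ((m : ℝ) + 2), ← mul_assoc, mul_inv_cancel₀ hm.ne', one_mul]
    linarith
  have h5 := (abs_le.1 h1).2
  linarith

include hS1 hy hy1 hTS in
theorem core (m : ℕ) (hm : 18 ≤ m) (i₀ : Fin m)
    (hpeak : S y (Sum.inr (conf m i₀ (fun _ => OnePoint.infty, OnePoint.infty))) = 1) : False := by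
  classical
  set σ₀ := conf m i₀ (fun _ => OnePoint.infty, OnePoint.infty) with hσ₀
  have hσi : ∀ i : Fin m, conf m i (fun _ => OnePoint.infty, OnePoint.infty) = σ₀ :=
    fun i => conf_infty m i i₀ _
  have hm0 : (18 : ℝ) ≤ m := by exact_mod_cast hm
  set η : ℝ := 1 / (100 * m) with hη
  have hη0 : 0 < η := by positivity
  have hmη : (m : ℝ) * η = 1 / 100 := by
    rw [hη]; field_simp
  -- finite sets of exceptions
  choose DE hDE using fun (i : Fin m) (g : G) =>
    conf_limit m i (R S y (E i g)) (R_continuous S y _)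
      (Function.update (fun _ => OnePoint.infty) i (g : OnePoint G), OnePoint.infty) η hη0
  choose DV hDV using fun (i : Fin m) =>
    conf_limit m i (R S y (V i)) (R_continuous S y _)
      (fun _ => OnePoint.infty, OnePoint.infty) η hη0
  choose DS hDS using fun (i : Fin m) =>
    conf_limit m i (fun σ => S y (Sum.inr σ)) ((S y).continuous.comp continuous_inr)
      (fun _ => OnePoint.infty, OnePoint.infty) η hη0
  set D : G → Finset G := fun g => Finset.univ.biUnion fun i => DE i g with hD
  set Z : Finset G := Finset.univ.biUnion fun i => DV i ∪ DS i with hZ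
  have hX : ¬ ((↑Z : Set G)ᶜ).Countable := by
    intro h
    apply G_uncountable
    have := h.union Z.countable_toSet
    rwa [Set.compl_union_self] at this
  obtain ⟨t, ht1, ht2⟩ := free_fintype (ι := Fin m ⊕ Fin m) D _ hX
  set b : Fin m → G := fun i => t (Sum.inl i) with hb
  set β : Fin m → G := fun i => t (Sum.inr i) with hβ
  have hbZ : ∀ i, b i ∉ Z := fun i => ht1 (Sum.inl i)
  have hβZ : ∀ i, β i ∉ Z := fun i => ht1 (Sum.inr i)
  -- bad configurations
  set ω : Fin m → M := fun i => conf m i ((fun a => (b a : OnePoint G)), (β i : OnePoint G)) with hω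
  set σb : M := conf m i₀ ((fun a => (b a : OnePoint G)), OnePoint.infty) with hσb
  set σβ : M := conf m i₀ ((fun a => (β a : OnePoint G)), OnePoint.infty) with hσβ
  have hcoe : ∀ g h : G, (g : OnePoint G) = h → g = h := fun g h e => OnePoint.coe_injective e
  have near_inf : ∀ (D' : Finset G) (g : G), g ∉ D' → Near D' OnePoint.infty (g : OnePoint G) := by
    intro D' g hg
    refine Or.inr ⟨rfl, fun g' hg' h => ?_⟩
    rw [hcoe _ _ h] at hg
    exact hg hg'
  -- (i)
  have h1 : ∀ i : Fin m, R S y (E i (b i)) σb - 2 * η ≤ R S y (E i (b i)) (ω i) := by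
    intro i
    have hsub : DE i (b i) ⊆ D (b i) := Finset.subset_biUnion_of_mem (fun j => DE j (b i))
      (Finset.mem_univ i)
    have hnear : ∀ a, Near (D (b i)) ((Function.update (fun _ => OnePoint.infty) i
        (b i : OnePoint G) : Fin m → OnePoint G) a) (b a : OnePoint G) := by
      intro a
      by_cases hai : a = i
      · subst hai
        rw [Function.update_self]
        exact Or.inl rfl
      · rw [Function.update_of_ne hai]
        exact near_inf _ _ (ht2 (Sum.inl i) (Sum.inl a) (fun h => hai (Sum.inl.inj h).symm)).2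
    have e1 := hDE i (b i) (D (b i)) hsub (fun a => (b a : OnePoint G)) OnePoint.infty hnear
      (Or.inl rfl)
    have e2 := hDE i (b i) (D (b i)) hsub (fun a => (b a : OnePoint G)) (β i : OnePoint G) hnear
      (near_inf _ _ (ht2 (Sum.inl i) (Sum.inr i) (fun h => by cases h)).2)
    rw [conf_infty m i i₀] at e1
    have e1' := abs_lt.1 e1
    have e2' := abs_lt.1 e2
    simp only [hσb, hω]
    linarith [e1'.2, e2'.1]
  -- (ii)
  have h2 : ∀ i : Fin m, R S y (E i (β i)) σβ - 2 * η ≤ R S y (E i (β i)) (ω i) := by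
    intro i
    have hsub : DE i (β i) ⊆ D (β i) := Finset.subset_biUnion_of_mem (fun j => DE j (β i))
      (Finset.mem_univ i)
    have hnear1 : ∀ a, Near (D (β i)) ((Function.update (fun _ => OnePoint.infty) i
        (β i : OnePoint G) : Fin m → OnePoint G) a) (β a : OnePoint G) := by
      intro a
      by_cases hai : a = i
      · subst hai
        rw [Function.update_self]
        exact Or.inl rfl
      · rw [Function.update_of_ne hai]
        exact near_inf _ _ (ht2 (Sum.inr i) (Sum.inr a) (fun h => hai (Sum.inr.inj h).symm)).2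
    have hnear2 : ∀ a, Near (D (β i)) ((Function.update (fun _ => OnePoint.infty) i
        (β i : OnePoint G) : Fin m → OnePoint G) a)
        ((Function.update (fun a => (b a : OnePoint G)) i (β i : OnePoint G)
          : Fin m → OnePoint G) a) := by
      intro a
      by_cases hai : a = i
      · subst hai
        rw [Function.update_self, Function.update_self]
        exact Or.inl rfl
      · rw [Function.update_of_ne hai, Function.update_of_ne hai]
        exact near_inf _ _ (ht2 (Sum.inr i) (Sum.inl a) (fun h => by cases h)).2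
    have e1 := hDE i (β i) (D (β i)) hsub (fun a => (β a : OnePoint G)) OnePoint.infty hnear1
      (Or.inl rfl)
    have e2 := hDE i (β i) (D (β i)) hsub
      (Function.update (fun a => (b a : OnePoint G)) i (β i : OnePoint G)) (b i : OnePoint G) hnear2
      (near_inf _ _ (ht2 (Sum.inr i) (Sum.inl i) (fun h => by cases h)).2)
    rw [conf_infty m i i₀] at e1
    have hsw := conf_swap m i (fun a => (b a : OnePoint G)) (β i : OnePoint G)
    rw [← hsw] at e2
    have e1' := abs_lt.1 e1
    have e2' := abs_lt.1 e2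
    simp only [hσβ, hω]
    linarith [e1'.2, e2'.1]
  have hnearZ : ∀ i a, Near Z (OnePoint.infty : OnePoint G) (b a : OnePoint G) ∧
      Near Z (OnePoint.infty : OnePoint G) (β i : OnePoint G) := fun i a =>
    ⟨near_inf _ _ (hbZ a), near_inf _ _ (hβZ i)⟩
  -- (iii)
  have h3 : ∀ i : Fin m, R S y (V i) (ω i) - η ≤ R S y (V i) σ₀ := by
    intro i
    have hsub : DV i ⊆ Z := Finset.Subset.trans Finset.subset_union_left
      (Finset.subset_biUnion_of_mem (fun i => DV i ∪ DS i) (Finset.mem_univ i))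
    have e1 := hDV i Z hsub (fun a => (b a : OnePoint G)) (β i : OnePoint G)
      (fun a => (hnearZ i a).1) (hnearZ i i).2
    rw [hσi i] at e1
    have e1' := abs_lt.1 e1
    simp only [hω]
    linarith [e1'.2]
  -- (iv)
  have h4 : ∀ i, 1 - η ≤ S y (Sum.inr (ω i)) := by
    intro i
    have hsub : DS i ⊆ Z := Finset.Subset.trans Finset.subset_union_right
      (Finset.subset_biUnion_of_mem (fun i => DV i ∪ DS i) (Finset.mem_univ i))
    have e1 := hDS i Z hsub (fun a => (b a : OnePoint G)) (β i : OnePoint G)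
      (fun a => (hnearZ i a).1) (hnearZ i i).2
    rw [hσi i, hpeak] at e1
    have e1' := abs_lt.1 e1
    simp only [hω]
    linarith [e1'.1]
  have h5 : ∀ i : Fin m, R S y (E i (b i)) (ω i) + R S y (E i (β i)) (ω i) - η ≤ R S y (V i) (ω i) := by
    intro i
    have hne : b i ≠ β i := (ht2 (Sum.inl i) (Sum.inr i) (fun h => by cases h)).1
    have hval : ∀ l : L, 0 ≤ (V i - E i (b i) - E i (β i)) l ∧
        (V i - E i (b i) - E i (β i)) l ≤ 1 := by
      intro l
      simp only [ContinuousMap.sub_apply, V_apply, E_apply]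
      by_cases c1 : l.1 = ((i : ℕ) : OnePoint ℕ)
      · by_cases c2 : l = (((i : ℕ) : OnePoint ℕ), ((b i : G) : OnePoint G))
        · have c3 : l ≠ (((i : ℕ) : OnePoint ℕ), ((β i : G) : OnePoint G)) := by
            intro h
            rw [c2] at h
            exact hne (hcoe _ _ (Prod.ext_iff.1 h).2)
          rw [if_pos c1, if_pos c2, if_neg c3]; norm_num
        · by_cases c3 : l = (((i : ℕ) : OnePoint ℕ), ((β i : G) : OnePoint G))
          · rw [if_pos c1, if_neg c2, if_pos c3]; norm_num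
          · rw [if_pos c1, if_neg c2, if_neg c3]; norm_num
      · have c2 : l ≠ (((i : ℕ) : OnePoint ℕ), ((b i : G) : OnePoint G)) := by
          intro h; exact c1 (by rw [h])
        have c3 : l ≠ (((i : ℕ) : OnePoint ℕ), ((β i : G) : OnePoint G)) := by
          intro h; exact c1 (by rw [h])
        rw [if_neg c1, if_neg c2, if_neg c3]; norm_num
    have e1 := R_ge S y hS1 hy (V i - E i (b i) - E i (β i)) (fun l => (hval l).1)
      (fun l => (hval l).2) (ω i)
    rw [R_sub, R_sub] at e1
    have e2 := h4 i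
    linarith
  -- summing up
  have s1 := sum_RV_le S y hS1 hy m σ₀
  have s2 := sum_RE_ge S y hy hy1 hTS m i₀ b
  have s3 := sum_RE_ge S y hy hy1 hTS m i₀ β
  rw [← hσb] at s2
  rw [← hσβ] at s3
  have s4 : ∑ a : Fin m, (R S y (E a (b a)) σb + R S y (E a (β a)) σβ - 6 * η) ≤
      ∑ a : Fin m, R S y (V a) σ₀ := by
    refine Finset.sum_le_sum fun a _ => ?_
    linarith [h1 a, h2 a, h3 a, h5 a]
  rw [Finset.sum_sub_distrib, Finset.sum_add_distrib, Finset.sum_const, Finset.card_univ,
    Fintype.card_fin, nsmul_eq_mul] at s4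
  have s5 : (9 : ℝ) / 10 ≤ (m : ℝ) / (m + 2) := by
    rw [div_le_div_iff₀ (by norm_num) (by positivity)]
    linarith
  have s6 : (m : ℝ) * (6 * η) = 6 / 100 := by rw [mul_left_comm, hmη]; norm_num
  rw [s6] at s4
  linarith

end core

end Pool.Agent.Lib.MP_8d1505_an
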